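import Pool.Agent.Lib.MP_d0e829_nt.Defs

/-!
Basic facts on normalised absolute values: multiplicativity, triangle inequality, product formula.
-/

open NumberField

namespace Pool.Agent.Lib.MP_d0e829_nt

section single

variable {K : Type*} [Field K] [NumberField K]

lemma finrank_pos' : (0 : ℝ) < Module.finrank ℚ K := by
  exact_mod_cast Module.finrank_pos

lemma weight_pos (w : Place K) : 0 < weight w := by
  have h := finrank_pos' (K := K)
  cases w with
  | inl w =>
    have : (0 : ℝ) < w.mult := by exact_mod_cast w.mult_pos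
    simp only [weight]; positivity
  | inr w => simp only [weight]; positivity

lemma rawAbs_nonneg (w : Place K) (a : K) : 0 ≤ rawAbs w a := by
  cases w with
  | inl w => exact apply_nonneg w a
  | inr w => exact apply_nonneg w a

@[simp] lemma rawAbs_zero (w : Place K) : rawAbs w 0 = 0 := by
  cases w <;> simp [rawAbs]

@[simp] lemma rawAbs_one (w : Place K) : rawAbs w 1 = 1 := by
  cases w <;> simp [rawAbs]

lemma rawAbs_mul (w : Place K) (a b : K) : rawAbs w (a * b) = rawAbs w a * rawAbs w b := by
  cases w <;> simp [rawAbs]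

lemma rawAbs_neg (w : Place K) (a : K) : rawAbs w (-a) = rawAbs w a := by
  cases w with
  | inl w => exact w.1.map_neg a
  | inr w => exact map_neg_eq_map w a

lemma rawAbs_pos (w : Place K) {a : K} (ha : a ≠ 0) : 0 < rawAbs w a := by
  cases w with
  | inl w => exact InfinitePlace.pos_iff.mpr ha
  | inr w => exact FinitePlace.pos_iff.mpr ha

lemma absV_nonneg (w : Place K) (a : K) : 0 ≤ absV w a :=
  Real.rpow_nonneg (rawAbs_nonneg w a) _

lemma absV_pos (w : Place K) {a : K} (ha : a ≠ 0) : 0 < absV w a :=
  Real.rpow_pos_of_pos (rawAbs_pos w ha) _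

@[simp] lemma absV_zero (w : Place K) : absV w 0 = 0 := by
  simp [absV, Real.zero_rpow (weight_pos w).ne']

@[simp] lemma absV_one (w : Place K) : absV w 1 = 1 := by
  simp [absV]

lemma absV_mul (w : Place K) (a b : K) : absV w (a * b) = absV w a * absV w b := by
  simp only [absV, rawAbs_mul]
  exact Real.mul_rpow (rawAbs_nonneg w a) (rawAbs_nonneg w b)

lemma absV_neg (w : Place K) (a : K) : absV w (-a) = absV w a := by
  simp only [absV, rawAbs_neg]

lemma log_absV (w : Place K) {a : K} (ha : a ≠ 0) :
    Real.log (absV w a) = weight w * Real.log (rawAbs w a) :=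
  Real.log_rpow (rawAbs_pos w ha) _

/-- The constant in the triangle inequality for three summands. -/
noncomputable def kap : Place K → ℝ
  | .inl w => (3 : ℝ) ^ weight (.inl w)
  | .inr _ => 1

lemma one_le_kap (w : Place K) : 1 ≤ kap w := by
  cases w with
  | inl w => exact Real.one_le_rpow (by norm_num) (weight_pos _).le
  | inr w => exact le_refl _

lemma kap_pos (w : Place K) : 0 < kap w := lt_of_lt_of_le one_pos (one_le_kap w)

lemma absV_add3_le (w : Place K) (a b c : K) {B : ℝ}
    (ha : absV w a ≤ B) (hb : absV w b ≤ B) (hc : absV w c ≤ B) :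
    absV w (a + b + c) ≤ kap w * B := by
  have hB : 0 ≤ B := (absV_nonneg w a).trans ha
  have hw := weight_pos w
  -- pass to raw absolute values
  set m := B ^ (weight w)⁻¹ with hm
  have hm0 : 0 ≤ m := Real.rpow_nonneg hB _
  have hmB : m ^ weight w = B := by
    rw [hm, ← Real.rpow_mul hB, inv_mul_cancel₀ hw.ne', Real.rpow_one]
  have key : ∀ t : K, absV w t ≤ B → rawAbs w t ≤ m := by
    intro t ht
    have h1 : rawAbs w t = (absV w t) ^ (weight w)⁻¹ := by
      rw [absV, ← Real.rpow_mul (rawAbs_nonneg w t), mul_inv_cancel₀ hw.ne', Real.rpow_one]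
    rw [h1, hm]
    exact Real.rpow_le_rpow (absV_nonneg w t) ht (inv_nonneg.mpr hw.le)
  have ha' := key a ha
  have hb' := key b hb
  have hc' := key c hc
  cases w with
  | inl w =>
    have h3 : rawAbs (.inl w) (a + b + c) ≤ 3 * m := by
      have h1 : w (a + b + c) ≤ w (a + b) + w c := w.1.add_le _ _
      have h2 : w (a + b) ≤ w a + w b := w.1.add_le _ _
      simp only [rawAbs] at ha' hb' hc' ⊢
      linarith
    calc absV (.inl w) (a + b + c) ≤ (3 * m) ^ weight (.inl w) :=
          Real.rpow_le_rpow (rawAbs_nonneg _ _) h3 hw.le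
      _ = kap (.inl w) * B := by
          rw [Real.mul_rpow (by norm_num) hm0, hmB]; rfl
  | inr w =>
    have h3 : rawAbs (.inr w) (a + b + c) ≤ m := by
      have h1 : w (a + b + c) ≤ max (w (a + b)) (w c) := FinitePlace.add_le w _ _
      have h2 : w (a + b) ≤ max (w a) (w b) := FinitePlace.add_le w _ _
      simp only [rawAbs] at ha' hb' hc' ⊢
      exact h1.trans (max_le (h2.trans (max_le ha' hb')) hc')
    calc absV (.inr w) (a + b + c) ≤ m ^ weight (.inr w) :=
          Real.rpow_le_rpow (rawAbs_nonneg _ _) h3 hw.le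
      _ = kap (.inr w) * B := by
          rw [hmB]; simp [kap]

lemma absV_add_le (w : Place K) (a b : K) {B : ℝ}
    (ha : absV w a ≤ B) (hb : absV w b ≤ B) : absV w (a + b) ≤ kap w * B := by
  have h := absV_add3_le w a b 0 ha hb (by simpa using (absV_nonneg w a).trans ha)
  simpa using h

/-- splitting a finite sum over a disjoint union -/
lemma finsum_sum_type {α β M : Type*} [AddCommMonoid M] (f : α ⊕ β → M)
    (hf : (Function.support f).Finite) :
    ∑ᶠ x, f x = ∑ᶠ a, f (Sum.inl a) + ∑ᶠ b, f (Sum.inr b) := by
  rw [← finsum_mem_univ, ← Set.range_inl_union_range_inr,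
    finsum_mem_union' Set.isCompl_range_inl_range_inr.disjoint (hf.subset Set.inter_subset_right)
      (hf.subset Set.inter_subset_right),
    finsum_mem_range Sum.inl_injective, finsum_mem_range Sum.inr_injective]

lemma support_log_absV_finite {a : K} (ha : a ≠ 0) :
    (Function.support fun w : Place K => Real.log (absV w a)).Finite := by
  have h1 : (Function.mulSupport fun w : FinitePlace K => w a).Finite :=
    FinitePlace.hasFiniteMulSupport ha
  have h2 : (Sum.inl '' (Set.univ : Set (InfinitePlace K)) ∪
      Sum.inr '' (Function.mulSupport fun w : FinitePlace K => w a) : Set (Place K)).Finite :=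
    (Set.toFinite _).union (h1.image _)
  refine h2.subset ?_
  intro w hw
  cases w with
  | inl w => left; exact ⟨w, trivial, rfl⟩
  | inr w =>
    right
    refine ⟨w, ?_, rfl⟩
    intro h
    apply hw
    simp only
    rw [log_absV _ ha]
    simp only [rawAbs]
    simp only at h
    rw [h]; simp

lemma sum_weight_inf : ∑ w : InfinitePlace K, weight (Sum.inl w : Place K) = 1 := by
  simp only [weight]
  rw [← Finset.sum_div]
  have h : ∑ w : InfinitePlace K, w.mult = Module.finrank ℚ K := InfinitePlace.sum_mult_eq
  rw [div_eq_one_iff_eq (finrank_pos' (K := K)).ne']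
  exact_mod_cast h

/-- The product formula. -/
lemma product_formula {a : K} (ha : a ≠ 0) : ∑ᶠ w : Place K, Real.log (absV w a) = 0 := by
  rw [finsum_sum_type _ (support_log_absV_finite ha)]
  have hd := finrank_pos' (K := K)
  have h := prod_abs_eq_one ha
  have hfin : (Function.mulSupport fun w : FinitePlace K => w a).Finite :=
    FinitePlace.hasFiniteMulSupport ha
  have h1 : ∑ᶠ w : InfinitePlace K, Real.log (absV (Sum.inl w : Place K) a)
      = (1 / Module.finrank ℚ K) * Real.log (∏ w : InfinitePlace K, w a ^ w.mult) := by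
    rw [finsum_eq_sum_of_fintype, Real.log_prod]
    · rw [Finset.mul_sum]
      refine Finset.sum_congr rfl fun w _ => ?_
      rw [log_absV _ ha, Real.log_pow]
      simp only [weight, rawAbs]
      ring
    · intro w _
      exact pow_ne_zero _ (InfinitePlace.pos_iff.mpr ha).ne'
  have h2 : ∑ᶠ w : FinitePlace K, Real.log (absV (Sum.inr w : Place K) a)
      = (1 / Module.finrank ℚ K) * Real.log (∏ᶠ w : FinitePlace K, w a) := by
    rw [Real.log_finprod (fun w => FinitePlace.pos_iff.mpr ha), mul_finsum _ ]
    · refine finsum_congr fun w => ?_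
      rw [log_absV _ ha]
      simp only [weight, rawAbs]
  rw [h1, h2, ← mul_add, ← Real.log_mul, h]
  · simp
  · exact Finset.prod_ne_zero_iff.mpr fun w _ => pow_ne_zero _ (InfinitePlace.pos_iff.mpr ha).ne'
  · intro h0
    rw [h0] at h
    simp at h

end single

end Pool.Agent.Lib.MP_d0e829_nt
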