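import Pool.Agent.Lib.MP_d0e829_nt.Defs

/-!
The number of places of `K` above a finite set of places of `k`.
-/

open NumberField

namespace Pool.Agent.Lib.MP_d0e829_nt

variable {k : Type*} [Field k] [NumberField k] {K : Type*} [Field K] [NumberField K] [Algebra k K]

lemma ncard_inf_le (v : InfinitePlace k) :
    {w : InfinitePlace K | w.comap (algebraMap k K) = v}.ncard ≤ Module.finrank k K := by
  let : Algebra k ℂ := v.embedding.toAlgebra
  have : FiniteDimensional k K := Module.Finite.of_restrictScalars_finite ℚ k K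
  have hsub : {w : InfinitePlace K | w.comap (algebraMap k K) = v} ⊆
      Set.range (fun ψ : K →ₐ[k] ℂ => InfinitePlace.mk (ψ : K →+* ℂ)) := by
    intro w hw
    have hw' : w.comap (algebraMap k K) = v := hw
    have h1 : InfinitePlace.mk (w.embedding.comp (algebraMap k K)) = InfinitePlace.mk v.embedding := by
      rw [InfinitePlace.mk_embedding, ← hw']
      conv_rhs => rw [← InfinitePlace.mk_embedding w]
      rfl
    rw [InfinitePlace.mk_eq_iff] at h1
    rcases h1 with h1 | h1
    · refine ⟨⟨w.embedding, fun r => ?_⟩, ?_⟩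
      · exact congrArg (fun f : k →+* ℂ => f r) h1
      · exact InfinitePlace.mk_embedding w
    · refine ⟨⟨ComplexEmbedding.conjugate w.embedding, fun r => ?_⟩, ?_⟩
      · exact congrArg (fun f : k →+* ℂ => f r) h1
      · change InfinitePlace.mk (ComplexEmbedding.conjugate w.embedding) = w
        rw [InfinitePlace.mk_conjugate_eq, InfinitePlace.mk_embedding]
  calc _ ≤ (Set.range (fun ψ : K →ₐ[k] ℂ => InfinitePlace.mk (ψ : K →+* ℂ))).ncard :=
        Set.ncard_le_ncard hsub (Set.toFinite _)
    _ ≤ Nat.card (K →ₐ[k] ℂ) := by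
        rw [← Set.image_univ, ← Set.ncard_univ]
        exact Set.ncard_image_le (Set.toFinite _)
    _ = Fintype.card (K →ₐ[k] ℂ) := Nat.card_eq_fintype_card
    _ ≤ Module.finrank k K := by
        rw [AlgHom.card k K ℂ]

lemma finite_fin (v : FinitePlace k) :
    {w : FinitePlace K | w.maximalIdeal.asIdeal.comap (algebraMap (𝓞 k) (𝓞 K))
      = v.maximalIdeal.asIdeal}.Finite ∧
    {w : FinitePlace K | w.maximalIdeal.asIdeal.comap (algebraMap (𝓞 k) (𝓞 K))
      = v.maximalIdeal.asIdeal}.ncard ≤ Module.finrank k K := by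
  classical
  have : FiniteDimensional k K := Module.Finite.of_restrictScalars_finite ℚ k K
  have hnz : NoZeroSMulDivisors (𝓞 k) (𝓞 K) := by
    refine ⟨fun {c x} h => ?_⟩
    rw [Algebra.smul_def, mul_eq_zero] at h
    exact h.imp_left fun h => (FaithfulSMul.algebraMap_eq_zero_iff (𝓞 k) (𝓞 K)).mp h
  set p := v.maximalIdeal.asIdeal with hp
  have : p.IsMaximal := v.maximalIdeal.isMaximal
  have hp0 : p ≠ ⊥ := v.maximalIdeal.ne_bot
  set T := {w : FinitePlace K | w.maximalIdeal.asIdeal.comap (algebraMap (𝓞 k) (𝓞 K)) = p} with hT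
  set f : FinitePlace K → Ideal (𝓞 K) := fun w => w.maximalIdeal.asIdeal with hf
  have hinj : Function.Injective f := by
    intro w₁ w₂ h
    apply FinitePlace.maximalIdeal_injective
    exact IsDedekindDomain.HeightOneSpectrum.ext h
  have hmaps : ∀ w ∈ T, f w ∈ IsDedekindDomain.primesOverFinset p (𝓞 K) := by
    intro w hw
    rw [IsDedekindDomain.mem_primesOverFinset_iff hp0]
    exact ⟨w.maximalIdeal.isPrime, ⟨hw.symm⟩⟩
  have hsub : f '' T ⊆ (IsDedekindDomain.primesOverFinset p (𝓞 K) : Set (Ideal (𝓞 K))) := by
    rintro _ ⟨w, hw, rfl⟩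
    exact hmaps w hw
  have hfin : (f '' T).Finite := (Finset.finite_toSet _).subset hsub
  refine ⟨hfin.of_finite_image hinj.injOn, ?_⟩
  calc T.ncard = (f '' T).ncard := (Set.ncard_image_of_injective T hinj).symm
    _ ≤ (IsDedekindDomain.primesOverFinset p (𝓞 K) : Set (Ideal (𝓞 K))).ncard :=
        Set.ncard_le_ncard hsub (Finset.finite_toSet _)
    _ = (IsDedekindDomain.primesOverFinset p (𝓞 K)).card := Set.ncard_coe_finset _
    _ ≤ Module.finrank k K := Ideal.card_primesOverFinset_le_finrank (𝓞 K) k K hp0

lemma finite_above (v : Place k) :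
    {w : Place K | LiesOver w v}.Finite ∧ {w : Place K | LiesOver w v}.ncard ≤ Module.finrank k K := by
  cases v with
  | inl v =>
    have h : {w : Place K | LiesOver w (Sum.inl v : Place k)}
        = Sum.inl '' {w : InfinitePlace K | w.comap (algebraMap k K) = v} := by
      ext w
      cases w with
      | inl w => simp [LiesOver]
      | inr w => simp [LiesOver]
    rw [h]
    exact ⟨(Set.toFinite _).image _, by
      rw [Set.ncard_image_of_injective _ Sum.inl_injective]; exact ncard_inf_le v⟩
  | inr v =>
    have h : {w : Place K | LiesOver w (Sum.inr v : Place k)}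
        = Sum.inr '' {w : FinitePlace K | w.maximalIdeal.asIdeal.comap (algebraMap (𝓞 k) (𝓞 K))
      = v.maximalIdeal.asIdeal} := by
      ext w
      cases w with
      | inl w => simp [LiesOver]
      | inr w => simp [LiesOver]
    rw [h]
    obtain ⟨h1, h2⟩ := finite_fin (K := K) v
    exact ⟨h1.image _, by rw [Set.ncard_image_of_injective _ Sum.inr_injective]; exact h2⟩

lemma placesAbove_eq (S : Finset (Place k)) :
    placesAbove K S = ⋃ v ∈ S, {w : Place K | LiesOver w v} := by
  ext w
  simp [placesAbove]

lemma placesAbove_finite (S : Finset (Place k)) : (placesAbove K S).Finite := by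
  rw [placesAbove_eq]
  exact Set.Finite.biUnion S.finite_toSet fun v _ => (finite_above v).1

lemma ncard_placesAbove_le (S : Finset (Place k)) :
    (placesAbove K S).ncard ≤ S.card * Module.finrank k K := by
  classical
  rw [placesAbove_eq]
  induction S using Finset.induction_on with
  | empty => simp
  | insert v S hv ih =>
    rw [Finset.set_biUnion_insert, Finset.card_insert_of_notMem hv]
    calc _ ≤ {w : Place K | LiesOver w v}.ncard + (⋃ v ∈ S, {w : Place K | LiesOver w v}).ncard :=
          Set.ncard_union_le _ _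
      _ ≤ Module.finrank k K + S.card * Module.finrank k K := add_le_add (finite_above v).2 ih
      _ = (S.card + 1) * Module.finrank k K := by ring

end Pool.Agent.Lib.MP_d0e829_nt
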