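import Mathlib

/-!
# Places, absolute height and proximity for points of the projective plane

Conventions are those of the problem file: for each place `w` of a number field `K` the absolute
value is normalised so that the absolute logarithmic Weil height of a point is the sum over all
places of `log ‖x‖_w`.
-/

open NumberField

namespace Pool.Agent.Lib.MP_d0e829_nt

universe u

/-- The places of the number field `K`: infinite places and finite places. -/
abbrev Place (K : Type*) [Field K] [NumberField K] := InfinitePlace K ⊕ FinitePlace K

section single

variable {K : Type*} [Field K] [NumberField K]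

/-- The exponent used for the normalisation: `[K_w : ℝ] / [K : ℚ]` for an infinite place `w`.
For a finite place Mathlib's absolute value `w a = N(𝔭)^(-ord a)` already carries the local degree,
so that the exponent is `1 / [K : ℚ]`. -/
noncomputable def weight : Place K → ℝ
  | .inl w => (w.mult : ℝ) / Module.finrank ℚ K
  | .inr _ => 1 / Module.finrank ℚ K

/-- The absolute value on `K` attached to a place, before normalisation. -/
noncomputable def rawAbs : Place K → K → ℝ
  | .inl w, a => w a
  | .inr w, a => w a

/-- The normalised absolute value `|a|_w`. -/
noncomputable def absV (w : Place K) (a : K) : ℝ := rawAbs w a ^ weight w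

/-- `‖x‖_w`, the maximum of the normalised absolute values of the coordinates. -/
noncomputable def normV (w : Place K) (x : Fin 3 → K) : ℝ := ⨆ j, absV w (x j)

/-- The absolute logarithmic Weil height of the point with homogeneous coordinates `x`. -/
noncomputable def height (x : Fin 3 → K) : ℝ := ∑ᶠ w : Place K, Real.log (normV w x)

end single

section relative

variable {k : Type*} [Field k] [NumberField k] {K : Type*} [Field K] [NumberField K] [Algebra k K]

/-- `LiesOver w v`: the place `w` of `K` lies above the place `v` of `k`. -/
def LiesOver : Place K → Place k → Prop
  | .inl w, .inl v => w.comap (algebraMap k K) = v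
  | .inr w, .inr v =>
      w.maximalIdeal.asIdeal.comap (algebraMap (𝓞 k) (𝓞 K)) = v.maximalIdeal.asIdeal
  | _, _ => False

variable (K) in
/-- The set of places of `K` lying above the places in `S`. -/
def placesAbove (S : Finset (Place k)) : Set (Place K) := {w | ∃ v ∈ S, LiesOver w v}

/-- The value at `x` of the linear form with coefficient vector `c` (coefficients in `k`). -/
def evalForm (c : Fin 3 → k) (x : Fin 3 → K) : K := ∑ j, algebraMap k K (c j) * x j

/-- The proximity function `m_{D,S}` of `D = L_1 + ⋯ + L_q`, where `L_i` is the line with
coefficient vector `ℓ i`. -/
noncomputable def proximity (S : Finset (Place k)) {q : ℕ} (ℓ : Fin q → Fin 3 → k)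
    (x : Fin 3 → K) : ℝ :=
  ∑ i, ∑ᶠ w ∈ placesAbove K S,
    Real.log (normV w x * normV w (fun j => algebraMap k K (ℓ i j)) / absV w (evalForm (ℓ i) x))

end relative

end Pool.Agent.Lib.MP_d0e829_nt
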