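import Pool.Agent.Lib.MP_d0e829_nt.Basic

/-!
Uniform control, over all finite extensions `K` of `k`, of the local constants attached to finitely
many elements of `k`.
-/

open NumberField Real

namespace Pool.Agent.Lib.MP_d0e829_nt

universe u

section single

variable {K : Type*} [Field K] [NumberField K]

lemma posLog_absV (w : Place K) (a : K) :
    log⁺ (absV w a) = weight w * log⁺ (rawAbs w a) := by
  rcases eq_or_ne a 0 with rfl | ha
  · simp
  · rw [posLog_apply, posLog_apply, log_absV w ha, mul_max_of_nonneg _ _ (weight_pos w).le, mul_zero]

lemma support_posLog_absV_finite (a : K) :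
    (Function.support fun w : Place K => log⁺ (absV w a)).Finite := by
  rcases eq_or_ne a 0 with rfl | ha
  · simp
  · refine (support_log_absV_finite ha).subset ?_
    intro w hw h0
    apply hw
    simp only at h0
    simp only [posLog_apply, h0, max_self]

lemma finitePlace_int_le_one (w : FinitePlace K) (x : 𝓞 K) : w (x : K) ≤ 1 := by
  rw [← FinitePlace.norm_embedding_eq w (x : K)]
  exact FinitePlace.norm_le_one K w.maximalIdeal x

lemma sum_inl_le {f : InfinitePlace K → ℝ} {B : ℝ} (h : ∀ w, f w ≤ B) :
    ∑ w : InfinitePlace K, weight (Sum.inl w : Place K) * f w ≤ B := by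
  calc ∑ w : InfinitePlace K, weight (Sum.inl w : Place K) * f w
      ≤ ∑ w : InfinitePlace K, weight (Sum.inl w : Place K) * B :=
        Finset.sum_le_sum fun w _ => mul_le_mul_of_nonneg_left (h w) (weight_pos _).le
    _ = B := by rw [← Finset.sum_mul, sum_weight_inf, one_mul]

end single

section relative

variable {k : Type*} [Field k] [NumberField k]

/-- an archimedean bound for an element of `k` -/
noncomputable def archB (a : k) : ℝ := ∑ v : InfinitePlace k, log⁺ (v a)

lemma archB_nonneg (a : k) : 0 ≤ archB a := Finset.sum_nonneg fun _ _ => posLog_nonneg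

variable {K : Type*} [Field K] [NumberField K] [Algebra k K]

lemma posLog_inf_le (a : k) (w : InfinitePlace K) : log⁺ (w (algebraMap k K a)) ≤ archB a := by
  have h : w (algebraMap k K a) = (w.comap (algebraMap k K)) a := rfl
  rw [h]
  exact Finset.single_le_sum (f := fun v : InfinitePlace k => log⁺ (v a))
    (fun _ _ => posLog_nonneg) (Finset.mem_univ _)

lemma sum_inf_posLog_le (a : k) :
    ∑ w : InfinitePlace K, log⁺ (absV (Sum.inl w : Place K) (algebraMap k K a)) ≤ archB a := by
  simp only [posLog_absV]
  exact sum_inl_le (f := fun w : InfinitePlace K => log⁺ (rawAbs (Sum.inl w : Place K)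
    (algebraMap k K a))) fun w => posLog_inf_le a w

end relative

/-- The sum of `log⁺ |a|_w` over all places of `K` is bounded independently of `K`. -/
lemma exists_bound_posLog {k : Type u} [Field k] [NumberField k] (a : k) :
    ∃ B : ℝ, ∀ (K : Type u) [Field K] [NumberField K] [Algebra k K],
      ∑ᶠ w : Place K, log⁺ (absV w (algebraMap k K a)) ≤ B := by
  obtain ⟨r, s, hs, rfl⟩ := IsFractionRing.div_surjective (A := 𝓞 k) a
  have hs0 : (s : k) ≠ 0 := by
    simpa using nonZeroDivisors.ne_zero hs
  refine ⟨archB ((algebraMap (𝓞 k) k r) / (algebraMap (𝓞 k) k s)) + archB (s : k), ?_⟩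
  intro K _ _ _
  set a : k := (algebraMap (𝓞 k) k r) / (algebraMap (𝓞 k) k s) with ha
  rw [finsum_sum_type _ (support_posLog_absV_finite _)]
  refine add_le_add ?_ ?_
  · rw [finsum_eq_sum_of_fintype]
    exact sum_inf_posLog_le a
  · -- finite places
    set s' : K := algebraMap k K (s : k) with hs'
    have hs'0 : s' ≠ 0 := by
      rw [hs']; exact (map_ne_zero _).mpr hs0
    have hle : ∀ w : FinitePlace K,
        log⁺ (absV (Sum.inr w : Place K) (algebraMap k K a))
          ≤ - Real.log (absV (Sum.inr w : Place K) s') := by
      intro w
      rw [posLog_absV, log_absV _ hs'0, ← mul_neg]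
      refine mul_le_mul_of_nonneg_left ?_ (weight_pos _).le
      simp only [rawAbs]
      have hr1 : w (algebraMap k K (r : k)) ≤ 1 := by
        have := finitePlace_int_le_one w (algebraMap (𝓞 k) (𝓞 K) r)
        exact this
      have hs1 : w s' ≤ 1 := by
        have := finitePlace_int_le_one w (algebraMap (𝓞 k) (𝓞 K) s)
        exact this
      have hspos : 0 < w s' := FinitePlace.pos_iff.mpr hs'0
      have hle1 : w (algebraMap k K a) ≤ (w s')⁻¹ := by
        rw [ha, map_div₀, map_div₀]
        change w (algebraMap k K (r : k)) / w s' ≤ _
        rw [div_eq_mul_inv]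
        exact mul_le_of_le_one_left (inv_nonneg.mpr hspos.le) hr1
      calc log⁺ (w (algebraMap k K a)) ≤ log⁺ ((w s')⁻¹) :=
            posLog_le_posLog (apply_nonneg w _) hle1
        _ = - Real.log (w s') := by
            rw [posLog_apply, Real.log_inv, max_eq_right]
            have := Real.log_nonpos hspos.le hs1
            linarith
    have hfin1 : (Function.support fun w : FinitePlace K =>
        log⁺ (absV (Sum.inr w : Place K) (algebraMap k K a))).Finite := by
      have := (support_posLog_absV_finite (K := K) (algebraMap k K a)).preimage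
        (f := (Sum.inr : FinitePlace K → Place K)) Sum.inr_injective.injOn
      exact this
    have hfin2 : (Function.support fun w : FinitePlace K =>
        - Real.log (absV (Sum.inr w : Place K) s')).Finite := by
      have := (support_log_absV_finite (K := K) hs'0).preimage
        (f := (Sum.inr : FinitePlace K → Place K)) Sum.inr_injective.injOn
      refine this.subset ?_
      intro w hw h0
      apply hw
      simp only at h0
      simp [h0]
    calc ∑ᶠ w : FinitePlace K, log⁺ (absV (Sum.inr w : Place K) (algebraMap k K a))
        ≤ ∑ᶠ w : FinitePlace K, - Real.log (absV (Sum.inr w : Place K) s') :=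
          finsum_le_finsum' hfin1 hfin2 hle
      _ = ∑ w : InfinitePlace K, Real.log (absV (Sum.inl w : Place K) s') := by
          have hp := product_formula hs'0
          rw [finsum_sum_type _ (support_log_absV_finite hs'0), finsum_eq_sum_of_fintype] at hp
          rw [finsum_neg_distrib]
          linarith
      _ ≤ ∑ w : InfinitePlace K, log⁺ (absV (Sum.inl w : Place K) s') :=
          Finset.sum_le_sum fun w _ => le_max_right _ _
      _ ≤ archB (s : k) := sum_inf_posLog_le (s : k)

section err

variable {k : Type*} [Field k] {K : Type*} [Field K] [NumberField K] [Algebra k K]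

/-- The error term at `w` attached to a finite set of elements of `k`. -/
noncomputable def err (A : Finset k) (w : Place K) : ℝ :=
  Real.log (kap w) + ∑ a ∈ A, log⁺ (absV w (algebraMap k K a))

lemma log_kap_nonneg (w : Place K) : 0 ≤ Real.log (kap w) := Real.log_nonneg (one_le_kap w)

lemma err_nonneg (A : Finset k) (w : Place K) : 0 ≤ err A w :=
  add_nonneg (log_kap_nonneg w) (Finset.sum_nonneg fun _ _ => posLog_nonneg)

lemma err_mono {A A' : Finset k} (h : A ⊆ A') (w : Place K) : err A w ≤ err A' w := by
  unfold err
  have := Finset.sum_le_sum_of_subset_of_nonneg (f := fun a => log⁺ (absV w (algebraMap k K a))) h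
    (fun _ _ _ => posLog_nonneg)
  linarith

lemma support_log_kap_finite : (Function.support fun w : Place K => Real.log (kap w)).Finite := by
  refine ((Set.toFinite (Set.univ : Set (InfinitePlace K))).image
    (Sum.inl : InfinitePlace K → Place K)).subset ?_
  intro w hw
  cases w with
  | inl w => exact ⟨w, trivial, rfl⟩
  | inr w => exact absurd (by simp [kap]) hw

lemma support_err_finite (A : Finset k) : (Function.support fun w : Place K => err A w).Finite := by
  classical
  have h2 : (⋃ a ∈ A, Function.support fun w : Place K => log⁺ (absV w (algebraMap k K a))).Finite :=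
    Set.Finite.biUnion A.finite_toSet fun a _ => support_posLog_absV_finite _
  refine (support_log_kap_finite.union h2).subset ?_
  intro w hw
  by_contra hcon
  simp only [Set.mem_union, not_or, Set.mem_iUnion, Function.mem_support, not_exists, not_not] at hcon
  apply hw
  change err A w = 0
  unfold err
  rw [hcon.1, Finset.sum_eq_zero fun a ha => hcon.2 a ha, add_zero]

lemma finsum_log_kap : ∑ᶠ w : Place K, Real.log (kap w) = Real.log 3 := by
  rw [finsum_sum_type _ support_log_kap_finite, finsum_eq_sum_of_fintype]
  have h1 : ∀ w : InfinitePlace K, Real.log (kap (Sum.inl w : Place K))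
      = weight (Sum.inl w : Place K) * Real.log 3 := by
    intro w
    simp only [kap]
    rw [Real.log_rpow (by norm_num)]
  have h2 : ∀ w : FinitePlace K, Real.log (kap (Sum.inr w : Place K)) = 0 := by
    intro w; simp [kap]
  simp only [h1, h2, finsum_zero, add_zero]
  rw [← Finset.sum_mul, sum_weight_inf, one_mul]

end err

/-- The total error is bounded independently of `K`. -/
lemma exists_bound_err {k : Type u} [Field k] [NumberField k] (A : Finset k) :
    ∃ E : ℝ, ∀ (K : Type u) [Field K] [NumberField K] [Algebra k K],
      ∑ᶠ w : Place K, err A w ≤ E := by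
  classical
  choose B hB using fun a : k => exists_bound_posLog a
  refine ⟨Real.log 3 + ∑ a ∈ A, B a, ?_⟩
  intro K _ _ _
  have h1 : ∑ᶠ w : Place K, err A w
      = ∑ᶠ w : Place K, Real.log (kap w)
        + ∑ᶠ w : Place K, ∑ a ∈ A, log⁺ (absV w (algebraMap k K a)) := by
    unfold err
    refine finsum_add_distrib support_log_kap_finite ?_
    have h2 : (⋃ a ∈ A, Function.support fun w : Place K =>
        log⁺ (absV w (algebraMap k K a))).Finite :=
      Set.Finite.biUnion A.finite_toSet fun a _ => support_posLog_absV_finite _
    refine h2.subset ?_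
    intro w hw
    by_contra hcon
    simp only [Set.mem_iUnion, Function.mem_support, not_exists, not_not] at hcon
    exact hw (Finset.sum_eq_zero fun a ha => hcon a ha)
  rw [h1, finsum_log_kap, finsum_sum_comm _ _ fun a _ => support_posLog_absV_finite _]
  exact add_le_add_right (Finset.sum_le_sum fun a _ => hB a K) _

end Pool.Agent.Lib.MP_d0e829_nt
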