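import Pool.Agent.Lib.MP_d0e829_nt.Err

/-!
Local and global inequalities for the quantities `mu M w x = log ‖x‖_w - log |M(x)|_w`.
-/

open NumberField Real

namespace Pool.Agent.Lib.MP_d0e829_nt

universe u

section single

variable {K : Type*} [Field K] [NumberField K]

lemma absV_le_normV (w : Place K) (x : Fin 3 → K) (j : Fin 3) : absV w (x j) ≤ normV w x :=
  le_ciSup (f := fun j => absV w (x j)) (Set.finite_range _).bddAbove j

lemma exists_normV_eq (w : Place K) (x : Fin 3 → K) : ∃ j, normV w x = absV w (x j) := by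
  obtain ⟨j, hj⟩ := exists_eq_ciSup_of_finite (f := fun j => absV w (x j))
  exact ⟨j, hj.symm⟩

lemma normV_nonneg (w : Place K) (x : Fin 3 → K) : 0 ≤ normV w x :=
  (absV_nonneg w (x 0)).trans (absV_le_normV w x 0)

lemma normV_pos (w : Place K) {x : Fin 3 → K} (hx : x ≠ 0) : 0 < normV w x := by
  obtain ⟨j, hj⟩ := Function.ne_iff.mp hx
  exact (absV_pos w hj).trans_le (absV_le_normV w x j)

lemma support_log_normV_finite {x : Fin 3 → K} (_hx : x ≠ 0) :
    (Function.support fun w : Place K => Real.log (normV w x)).Finite := by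
  classical
  -- all places where some nonzero coordinate has absolute value different from one
  have hfin : (⋃ j : Fin 3, Function.support fun w : Place K => Real.log (absV w (x j))).Finite := by
    refine Set.finite_iUnion fun j => ?_
    rcases eq_or_ne (x j) 0 with h | h
    · simp [h]
    · exact support_log_absV_finite h
  refine hfin.subset ?_
  intro w hw
  by_contra hcon
  simp only [Set.mem_iUnion, Function.mem_support, not_exists, not_not] at hcon
  apply hw
  obtain ⟨j, hj⟩ := exists_normV_eq w x
  simp only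
  rw [hj]
  exact hcon j

end single

section relative

variable {k : Type*} [Field k] {K : Type*} [Field K] [NumberField K] [Algebra k K]

/-- the unnormalised local proximity -/
noncomputable def mu (M : Fin 3 → k) (w : Place K) (x : Fin 3 → K) : ℝ :=
  Real.log (normV w x) - Real.log (absV w (evalForm M x))

lemma posLog_le_err {A : Finset k} {a : k} (ha : a ∈ A) (w : Place K) :
    log⁺ (absV w (algebraMap k K a)) ≤ err A w - Real.log (kap w) := by
  unfold err
  have := Finset.single_le_sum (f := fun a => log⁺ (absV w (algebraMap k K a)))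
    (fun _ _ => posLog_nonneg) ha
  linarith

lemma log_normV_le_err {A : Finset k} {c : Fin 3 → k} (hc : ∀ j, c j ∈ A) (w : Place K) :
    Real.log (normV w fun j => algebraMap k K (c j)) ≤ err A w - Real.log (kap w) := by
  obtain ⟨j, hj⟩ := exists_normV_eq w fun j => algebraMap k K (c j)
  rw [hj]
  exact (le_max_right _ _).trans (posLog_le_err (hc j) w)

lemma absV_evalForm_le (c : Fin 3 → k) (w : Place K) (x : Fin 3 → K) :
    absV w (evalForm c x) ≤ kap w * ((normV w fun j => algebraMap k K (c j)) * normV w x) := by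
  have h : ∀ j, absV w (algebraMap k K (c j) * x j)
      ≤ (normV w fun j => algebraMap k K (c j)) * normV w x := by
    intro j
    rw [absV_mul]
    exact mul_le_mul (absV_le_normV w (fun j => algebraMap k K (c j)) j) (absV_le_normV w x j)
      (absV_nonneg _ _) (normV_nonneg _ _)
  rw [evalForm, Fin.sum_univ_three]
  exact absV_add3_le w _ _ _ (h 0) (h 1) (h 2)

lemma evalForm_ne_zero_imp {c : Fin 3 → k} {x : Fin 3 → K} (h : evalForm c x ≠ 0) :
    c ≠ 0 ∧ x ≠ 0 := by
  constructor
  · rintro rfl; apply h; simp [evalForm]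
  · rintro rfl; apply h; simp [evalForm]

lemma mu_add_err_nonneg {A : Finset k} {M : Fin 3 → k} (hM : ∀ j, M j ∈ A) (w : Place K)
    {x : Fin 3 → K} (hx : evalForm M x ≠ 0) : 0 ≤ mu M w x + err A w := by
  obtain ⟨hM0, hx0⟩ := evalForm_ne_zero_imp hx
  have hM0' : (fun j => algebraMap k K (M j)) ≠ 0 := by
    intro h
    apply hM0
    funext j
    have := congrFun h j
    simpa using this
  have h1 := absV_evalForm_le M w x
  have h2 := log_normV_le_err hM w
  have h3 := Real.log_le_log (absV_pos w hx) h1
  rw [Real.log_mul (kap_pos w).ne' (mul_pos (normV_pos w hM0') (normV_pos w hx0)).ne',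
    Real.log_mul (normV_pos w hM0').ne' (normV_pos w hx0).ne'] at h3
  unfold mu
  linarith

lemma sum_le_finsum {α : Type*} {g : α → ℝ} (hg : ∀ a, 0 ≤ g a) (hfin : (Function.support g).Finite)
    (T : Finset α) : ∑ a ∈ T, g a ≤ ∑ᶠ a, g a := by
  classical
  have h : Function.support g ⊆ ((T ∪ hfin.toFinset : Finset α) : Set α) := by
    intro a ha
    simp only [Finset.coe_union, Set.Finite.coe_toFinset, Set.mem_union]
    exact Or.inr ha
  rw [finsum_eq_sum_of_support_subset g h]
  exact Finset.sum_le_sum_of_subset_of_nonneg Finset.subset_union_left fun a _ _ => hg a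

/-- Global inequality: over any finite set of places the sum of `mu` is at most the height plus
the total error. -/
lemma sum_mu_le {A : Finset k} {M : Fin 3 → k} (hM : ∀ j, M j ∈ A)
    {x : Fin 3 → K} (hx : evalForm M x ≠ 0) (T : Finset (Place K)) :
    ∑ w ∈ T, mu M w x ≤ height x + ∑ᶠ w : Place K, err A w := by
  obtain ⟨hM0, hx0⟩ := evalForm_ne_zero_imp hx
  have hs1 := support_log_normV_finite hx0
  have hs2 := support_log_absV_finite hx
  have hs3 : (Function.support fun w : Place K => err A w).Finite := support_err_finite A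
  have hmu : (Function.support fun w : Place K => mu M w x).Finite := by
    refine (hs1.union hs2).subset ?_
    intro w hw
    by_contra hcon
    simp only [Set.mem_union, Function.mem_support, not_or, not_not] at hcon
    apply hw
    simp only
    unfold mu
    rw [hcon.1, hcon.2, sub_zero]
  have htot : ∑ᶠ w : Place K, (mu M w x + err A w) = height x + ∑ᶠ w : Place K, err A w := by
    rw [finsum_add_distrib hmu hs3]
    congr 1
    unfold mu
    rw [finsum_sub_distrib hs1 hs2, product_formula hx, sub_zero]
    rfl
  have hs4 : (Function.support fun w : Place K => mu M w x + err A w).Finite := by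
    refine (hmu.union hs3).subset (Function.support_add _ _)
  calc ∑ w ∈ T, mu M w x ≤ ∑ w ∈ T, (mu M w x + err A w) :=
        Finset.sum_le_sum fun w _ => by have := err_nonneg A w; linarith
    _ ≤ ∑ᶠ w : Place K, (mu M w x + err A w) :=
        sum_le_finsum (fun w => mu_add_err_nonneg hM w hx) hs4 T
    _ = _ := htot

lemma height_nonneg (x : Fin 3 → K) (hx : x ≠ 0) : 0 ≤ height x := by
  -- normalise by a nonzero coordinate
  obtain ⟨j, hj⟩ := Function.ne_iff.mp hx
  have hj' : x j ≠ 0 := hj
  have hs1 := support_log_normV_finite hx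
  have hs2 := support_log_absV_finite hj'
  have h0 : ∑ᶠ w : Place K, (Real.log (normV w x) - Real.log (absV w (x j))) = height x := by
    rw [finsum_sub_distrib hs1 hs2, product_formula hj', sub_zero]
    rfl
  rw [← h0]
  refine finsum_nonneg fun w => ?_
  have := Real.log_le_log (absV_pos w hj') (absV_le_normV w x j)
  linarith

lemma absV_term_le {A : Finset k} {a : k} (ha : a ∈ A) (w : Place K) {y : K} (hy : y ≠ 0)
    {L : ℝ} (h : Real.log (absV w y) ≤ L) :
    absV w (algebraMap k K a * y) ≤ Real.exp (L + err A w - Real.log (kap w)) := by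
  rcases eq_or_ne (algebraMap k K a) 0 with h0 | h0
  · rw [h0, zero_mul, absV_zero]; exact (Real.exp_pos _).le
  · have h1 : 0 < absV w (algebraMap k K a * y) := absV_pos w (mul_ne_zero h0 hy)
    rw [← Real.log_le_iff_le_exp h1, absV_mul, Real.log_mul (absV_pos w h0).ne' (absV_pos w hy).ne']
    have h2 := posLog_le_err ha w
    have h3 : Real.log (absV w (algebraMap k K a)) ≤ log⁺ (absV w (algebraMap k K a)) :=
      le_max_right _ _
    linarith

end relative

section lines

variable {k : Type u} [Field k]

/-- Three lines without common point: a point cannot be close to all three of them. -/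
lemma exists_three_lines {l₁ l₂ l₃ : Fin 3 → k} (h : LinearIndependent k ![l₁, l₂, l₃]) :
    ∃ A : Finset k, ∀ A' : Finset k, A ⊆ A' → ∀ (K : Type u) [Field K] [NumberField K]
      [Algebra k K] (w : Place K) (x : Fin 3 → K), evalForm l₁ x ≠ 0 → evalForm l₂ x ≠ 0 →
      evalForm l₃ x ≠ 0 →
      mu l₁ w x ≤ err A' w ∨ mu l₂ w x ≤ err A' w ∨ mu l₃ w x ≤ err A' w := by
  classical
  set N : Matrix (Fin 3) (Fin 3) k := Matrix.of ![l₁, l₂, l₃] with hN
  have hu : IsUnit N := by
    rw [← Matrix.linearIndependent_rows_iff_isUnit]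
    exact h
  have hdet : IsUnit N.det := (Matrix.isUnit_iff_isUnit_det N).mp hu
  set B := N⁻¹ with hB
  have hBN : B * N = 1 := Matrix.nonsing_inv_mul N hdet
  refine ⟨Finset.univ.image fun rs : Fin 3 × Fin 3 => B rs.1 rs.2, ?_⟩
  intro A' hA' K _ _ _ w x h1 h2 h3
  have hmem : ∀ r s, B r s ∈ A' := fun r s =>
    hA' (Finset.mem_image.mpr ⟨(r, s), Finset.mem_univ _, rfl⟩)
  -- coordinates in terms of the values of the three forms
  have hcoord : ∀ r, x r = algebraMap k K (B r 0) * evalForm l₁ x
      + algebraMap k K (B r 1) * evalForm l₂ x + algebraMap k K (B r 2) * evalForm l₃ x := by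
    intro r
    have hr : ∀ j, B r 0 * l₁ j + B r 1 * l₂ j + B r 2 * l₃ j = if r = j then 1 else 0 := by
      intro j
      have := congrFun (congrFun hBN r) j
      rw [Matrix.mul_apply, Fin.sum_univ_three, Matrix.one_apply] at this
      simpa [hN] using this
    have hr' : ∀ j, algebraMap k K (B r 0) * algebraMap k K (l₁ j)
        + algebraMap k K (B r 1) * algebraMap k K (l₂ j)
        + algebraMap k K (B r 2) * algebraMap k K (l₃ j) = if r = j then 1 else 0 := by
      intro j
      have := congrArg (algebraMap k K) (hr j)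
      rw [map_add, map_add, map_mul, map_mul, map_mul] at this
      rw [this]
      split_ifs <;> simp
    simp only [evalForm, Fin.sum_univ_three]
    have e0 := hr' 0
    have e1 := hr' 1
    have e2 := hr' 2
    fin_cases r
    · simp at e0 e1 e2 ⊢
      linear_combination (-(x 0)) * e0 - (x 1) * e1 - (x 2) * e2
    · simp at e0 e1 e2 ⊢
      linear_combination (-(x 0)) * e0 - (x 1) * e1 - (x 2) * e2
    · simp at e0 e1 e2 ⊢
      linear_combination (-(x 0)) * e0 - (x 1) * e1 - (x 2) * e2
  by_contra hcon
  push Not at hcon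
  obtain ⟨c1, c2, c3⟩ := hcon
  -- choose a common strict gap
  obtain ⟨e, he0, he1, he2, he3⟩ : ∃ e > 0, err A' w + e ≤ mu l₁ w x ∧ err A' w + e ≤ mu l₂ w x ∧
      err A' w + e ≤ mu l₃ w x := by
    refine ⟨min (min (mu l₁ w x - err A' w) (mu l₂ w x - err A' w)) (mu l₃ w x - err A' w), ?_,
      ?_, ?_, ?_⟩
    · simp only [gt_iff_lt, lt_min_iff]; refine ⟨⟨?_, ?_⟩, ?_⟩ <;> linarith
    · have := (min_le_left (min (mu l₁ w x - err A' w) (mu l₂ w x - err A' w))
        (mu l₃ w x - err A' w)).trans (min_le_left _ _)
      linarith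
    · have := (min_le_left (min (mu l₁ w x - err A' w) (mu l₂ w x - err A' w))
        (mu l₃ w x - err A' w)).trans (min_le_right _ _)
      linarith
    · have := (min_le_right (min (mu l₁ w x - err A' w) (mu l₂ w x - err A' w))
        (mu l₃ w x - err A' w))
      linarith
  obtain ⟨hl1, hx0⟩ := evalForm_ne_zero_imp h1
  obtain ⟨j, hj⟩ := exists_normV_eq w x
  have hnpos := normV_pos w hx0
  have t1 := absV_term_le (hmem j 0) w h1
    (L := Real.log (normV w x) - err A' w - e) (by unfold mu at he1; linarith)
  have t2 := absV_term_le (hmem j 1) w h2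
    (L := Real.log (normV w x) - err A' w - e) (by unfold mu at he2; linarith)
  have t3 := absV_term_le (hmem j 2) w h3
    (L := Real.log (normV w x) - err A' w - e) (by unfold mu at he3; linarith)
  have hsum := absV_add3_le w _ _ _ t1 t2 t3
  rw [← hcoord j, ← hj] at hsum
  have hkap : kap w = Real.exp (Real.log (kap w)) := (Real.exp_log (kap_pos w)).symm
  have hn : normV w x = Real.exp (Real.log (normV w x)) := (Real.exp_log hnpos).symm
  rw [hn, hkap, ← Real.exp_add, Real.log_exp, Real.log_exp, Real.exp_le_exp] at hsum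
  linarith

/-- If `M` is a combination of `l₁` and `l₂`, then being close to both lines forces closeness to
the line `M = 0`. -/
lemma min_mu_le {K : Type u} [Field K] [NumberField K] [Algebra k K] {A : Finset k}
    {l₁ l₂ M : Fin 3 → k} {α β : k} (hα : α ∈ A) (hβ : β ∈ A) (hM : M = α • l₁ + β • l₂)
    (w : Place K) (x : Fin 3 → K) (h1 : evalForm l₁ x ≠ 0) (h2 : evalForm l₂ x ≠ 0)
    (h3 : evalForm M x ≠ 0) {t : ℝ} (ht1 : t ≤ mu l₁ w x) (ht2 : t ≤ mu l₂ w x) :
    t ≤ mu M w x + err A w := by
  have hev : evalForm M x = algebraMap k K α * evalForm l₁ x + algebraMap k K β * evalForm l₂ x := by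
    rw [hM]
    simp only [evalForm, Fin.sum_univ_three, Pi.add_apply, Pi.smul_apply, smul_eq_mul, map_add,
      map_mul]
    ring
  have t1 := absV_term_le hα w h1 (L := Real.log (normV w x) - t) (by unfold mu at ht1; linarith)
  have t2 := absV_term_le hβ w h2 (L := Real.log (normV w x) - t) (by unfold mu at ht2; linarith)
  have hsum := absV_add_le w _ _ t1 t2
  rw [← hev] at hsum
  have hkap : kap w = Real.exp (Real.log (kap w)) := (Real.exp_log (kap_pos w)).symm
  rw [hkap, ← Real.exp_add, ← Real.log_le_iff_le_exp (absV_pos w h3), Real.log_exp] at hsum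
  unfold mu
  linarith

end lines

end Pool.Agent.Lib.MP_d0e829_nt
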