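import Pool.Agent.Lib.MP_d0e829_nt.Local
import Pool.Agent.Lib.MP_d0e829_nt.Count

/-!
The inequality `m_{D,S}(P) ≤ 3 δ h(P) + C` when at most `2 δ` places lie above `S`.
-/

open NumberField Real

namespace Pool.Agent.Lib.MP_d0e829_nt

universe u

lemma sum_le_of_pairs {α : Type*} [DecidableEq α] (f : α → ℝ) (B : ℝ) (hB : 0 ≤ B) :
    ∀ (δ : ℕ) (W : Finset α), W.card ≤ 2 * δ → (∀ w ∈ W, f w ≤ B) →
      (∀ w ∈ W, ∀ w' ∈ W, w ≠ w' → f w + f w' ≤ B) → ∑ w ∈ W, f w ≤ δ * B := by
  intro δ
  induction δ with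
  | zero =>
    intro W hW _ _
    have : W = ∅ := Finset.card_eq_zero.mp (by omega)
    subst this
    simp
  | succ δ ih =>
    intro W hW h1 h2
    rcases Nat.lt_or_ge W.card 2 with hc | hc
    · have hB' : B ≤ ((δ + 1 : ℕ) : ℝ) * B := by
        have : (1 : ℝ) ≤ ((δ + 1 : ℕ) : ℝ) := by exact_mod_cast Nat.succ_le_succ (Nat.zero_le δ)
        nlinarith
      rcases Nat.lt_or_ge W.card 1 with hc1 | hc1
      · have : W = ∅ := Finset.card_eq_zero.mp (by omega)
        subst this
        simp only [Finset.sum_empty]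
        positivity
      · obtain ⟨a, rfl⟩ := Finset.card_eq_one.mp (le_antisymm (by omega) hc1)
        rw [Finset.sum_singleton]
        exact (h1 a (Finset.mem_singleton_self a)).trans hB'
    · obtain ⟨a, ha, b, hb, hab⟩ := Finset.one_lt_card.mp (show 1 < W.card by omega)
      have hb' : b ∈ W.erase a := Finset.mem_erase.mpr ⟨hab.symm, hb⟩
      have hcard : ((W.erase a).erase b).card ≤ 2 * δ := by
        rw [Finset.card_erase_of_mem hb', Finset.card_erase_of_mem ha]; omega
      have hsub : ∀ w ∈ (W.erase a).erase b, w ∈ W := fun w hw =>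
        Finset.mem_of_mem_erase (Finset.mem_of_mem_erase hw)
      have := ih _ hcard (fun w hw => h1 w (hsub w hw))
        (fun w hw w' hw' hne => h2 w (hsub w hw) w' (hsub w' hw') hne)
      rw [← Finset.add_sum_erase W f ha, ← Finset.add_sum_erase (W.erase a) f hb']
      have h3 := h2 a ha b hb hab
      push_cast
      linarith

lemma top_two {q : ℕ} (hq : 2 ≤ q) (f : Fin q → ℝ) (e : ℝ)
    (h3 : ∀ i j l, i ≠ j → i ≠ l → j ≠ l → f i ≤ e ∨ f j ≤ e ∨ f l ≤ e) :
    ∃ a b, a ≠ b ∧ f b ≤ f a ∧ ∀ i, i ≠ a → i ≠ b → f i ≤ e := by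
  classical
  have : Nonempty (Fin q) := ⟨⟨0, by omega⟩⟩
  obtain ⟨a, ha⟩ := Finite.exists_max f
  have hne : (Finset.univ.erase a).Nonempty := by
    rw [← Finset.card_pos, Finset.card_erase_of_mem (Finset.mem_univ a), Finset.card_univ,
      Fintype.card_fin]
    omega
  obtain ⟨b, hb, hb'⟩ := Finset.exists_max_image (Finset.univ.erase a) f hne
  have hba : b ≠ a := (Finset.mem_erase.mp hb).1
  refine ⟨a, b, hba.symm, ha b, ?_⟩
  intro i hia hib
  have hi := hb' i (Finset.mem_erase.mpr ⟨hia, Finset.mem_univ i⟩)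
  rcases h3 i a b hia hib hba.symm with h | h | h
  · exact h
  · exact (ha i).trans h
  · exact hi.trans h

lemma exists_common {k : Type*} [Field k] {u₁ u₂ v₁ v₂ : Fin 3 → k}
    (hu : LinearIndependent k ![u₁, u₂]) (hv : LinearIndependent k ![v₁, v₂]) :
    ∃ (M : Fin 3 → k) (α β γ η : k), M ≠ 0 ∧ M = α • u₁ + β • u₂ ∧ M = γ • v₁ + η • v₂ := by
  have hnot : ¬ LinearIndependent k ![u₁, u₂, v₁, v₂] := by
    intro h
    have := h.fintype_card_le_finrank
    simp at this
  obtain ⟨g, hg, i, hi⟩ := Fintype.not_linearIndependent_iff.mp hnot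
  rw [Fin.sum_univ_four] at hg
  simp only [Matrix.cons_val] at hg
  refine ⟨g 0 • u₁ + g 1 • u₂, g 0, g 1, -g 2, -g 3, ?_, rfl, ?_⟩
  · intro h0
    rw [LinearIndependent.pair_iff] at hu hv
    obtain ⟨h00, h01⟩ := hu _ _ h0
    rw [h0, zero_add] at hg
    obtain ⟨h02, h03⟩ := hv _ _ hg
    fin_cases i
    · exact hi h00
    · exact hi h01
    · exact hi h02
    · exact hi h03
  · rw [neg_smul, neg_smul, ← neg_add, eq_neg_iff_add_eq_zero, ← hg]
    abel

lemma pair_of_triple {k : Type*} [Field k] {a b c : Fin 3 → k}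
    (h : LinearIndependent k ![a, b, c]) : LinearIndependent k ![a, b] := by
  have h2 := h.comp ![0, 1] (by intro i j; fin_cases i <;> fin_cases j <;> simp)
  convert h2 using 1
  ext i
  fin_cases i <;> rfl

/-- a third index -/
lemma exists_third {q : ℕ} (hq : 3 ≤ q) (a b : Fin q) : ∃ c, c ≠ a ∧ c ≠ b := by
  classical
  have hcard : (({a, b} : Finset (Fin q))).card < (Finset.univ : Finset (Fin q)).card := by
    rw [Finset.card_univ, Fintype.card_fin]
    exact lt_of_le_of_lt Finset.card_le_two (by omega)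
  obtain ⟨c, -, hc⟩ := Finset.exists_mem_notMem_of_card_lt_card hcard
  simp only [Finset.mem_insert, Finset.mem_singleton, not_or] at hc
  exact ⟨c, hc.1, hc.2⟩

theorem main {k : Type u} [Field k] [NumberField k] (S : Finset (Place k)) {q : ℕ}
    (ℓ : Fin q → Fin 3 → k) (h0 : ∀ i, ℓ i ≠ 0)
    (hgen : ∀ i j l, i ≠ j → i ≠ l → j ≠ l → LinearIndependent k ![ℓ i, ℓ j, ℓ l]) (δ : ℕ) :
    ∃ (Z : Finset (Fin 3 → k)) (C : ℝ), (∀ M ∈ Z, M ≠ 0) ∧
      ∀ (K : Type u) [Field K] [NumberField K] [Algebra k K] (x : Fin 3 → K),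
        Module.finrank k K ≤ δ → (S.card ≤ 2 ∨ (placesAbove K S).ncard ≤ 2 * δ) →
        x ≠ 0 → (∀ M ∈ Z, evalForm M x ≠ 0) →
        proximity S ℓ x ≤ 3 * δ * height x + C := by
  classical
  -- auxiliary lines
  have hM : ∀ a b c d : Fin q, ∃ (M : Fin 3 → k) (A : Finset k), M ≠ 0 ∧ (∀ j, M j ∈ A) ∧
      (3 ≤ q → a ≠ b → c ≠ d → ∃ α ∈ A, ∃ β ∈ A, ∃ γ ∈ A, ∃ η ∈ A,
        M = α • ℓ a + β • ℓ b ∧ M = γ • ℓ c + η • ℓ d) := by
    intro a b c d
    by_cases hcase : 3 ≤ q ∧ a ≠ b ∧ c ≠ d
    · obtain ⟨hq, hab, hcd⟩ := hcase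
      have hli : ∀ a b : Fin q, a ≠ b → LinearIndependent k ![ℓ a, ℓ b] := by
        intro a b hab
        obtain ⟨c, hca, hcb⟩ := exists_third hq a b
        exact pair_of_triple (hgen a b c hab hca.symm hcb.symm)
      obtain ⟨M, α, β, γ, η, hM0, h1, h2⟩ := exists_common (hli a b hab) (hli c d hcd)
      refine ⟨M, Finset.univ.image M ∪ {α, β, γ, η}, hM0, ?_, ?_⟩
      · intro j
        exact Finset.mem_union_left _ (Finset.mem_image_of_mem _ (Finset.mem_univ _))
      · intro _ _ _
        refine ⟨α, ?_, β, ?_, γ, ?_, η, ?_, h1, h2⟩ <;>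
          exact Finset.mem_union_right _ (by simp)
    · refine ⟨ℓ a, Finset.univ.image (ℓ a), h0 a, ?_, ?_⟩
      · intro j
        exact Finset.mem_image_of_mem _ (Finset.mem_univ _)
      · intro h1 h2 h3
        exact absurd ⟨h1, h2, h3⟩ hcase
  choose M AM hM0 hMA hMc using hM
  -- three lines
  have h3 : ∀ i j l : Fin q, ∃ A : Finset k, i ≠ j → i ≠ l → j ≠ l → ∀ A' : Finset k, A ⊆ A' →
      ∀ (K : Type u) [Field K] [NumberField K] [Algebra k K] (w : Place K) (x : Fin 3 → K),
      evalForm (ℓ i) x ≠ 0 → evalForm (ℓ j) x ≠ 0 → evalForm (ℓ l) x ≠ 0 →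
      mu (ℓ i) w x ≤ err A' w ∨ mu (ℓ j) w x ≤ err A' w ∨ mu (ℓ l) w x ≤ err A' w := by
    intro i j l
    by_cases hd : i ≠ j ∧ i ≠ l ∧ j ≠ l
    · obtain ⟨A, hA⟩ := exists_three_lines (hgen i j l hd.1 hd.2.1 hd.2.2)
      exact ⟨A, fun _ _ _ => hA⟩
    · exact ⟨∅, fun h1 h2 h3 => absurd ⟨h1, h2, h3⟩ hd⟩
  choose A3 hA3 using h3
  -- the finite set of constants
  set A : Finset k :=
    (Finset.univ : Finset (Fin q × Fin q × Fin q × Fin q)).biUnion
        (fun t => AM t.1 t.2.1 t.2.2.1 t.2.2.2) ∪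
      (Finset.univ : Finset (Fin q × Fin q × Fin q)).biUnion (fun t => A3 t.1 t.2.1 t.2.2) ∪
      (Finset.univ : Finset (Fin q × Fin 3)).image (fun t => ℓ t.1 t.2) with hA
  have hAM : ∀ a b c d, AM a b c d ⊆ A := by
    intro a b c d y hy
    refine Finset.mem_union_left _ (Finset.mem_union_left _ ?_)
    exact Finset.mem_biUnion.mpr ⟨(a, b, c, d), Finset.mem_univ _, hy⟩
  have hA3' : ∀ i j l, A3 i j l ⊆ A := by
    intro i j l y hy
    refine Finset.mem_union_left _ (Finset.mem_union_right _ ?_)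
    exact Finset.mem_biUnion.mpr ⟨(i, j, l), Finset.mem_univ _, hy⟩
  have hAℓ : ∀ i j, ℓ i j ∈ A := by
    intro i j
    exact Finset.mem_union_right _ (Finset.mem_image.mpr ⟨(i, j), Finset.mem_univ _, rfl⟩)
  obtain ⟨E₀, hE₀⟩ := exists_bound_err A
  set E := max E₀ 0 with hE
  have hE0 : 0 ≤ E := le_max_right _ _
  refine ⟨(Finset.univ : Finset (Fin q × Fin q × Fin q × Fin q)).image
      (fun t => M t.1 t.2.1 t.2.2.1 t.2.2.2) ∪ Finset.univ.image ℓ,
    (4 * δ + 2 * q) * E, ?_, ?_⟩
  · intro N hN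
    rcases Finset.mem_union.mp hN with h | h
    · obtain ⟨t, -, rfl⟩ := Finset.mem_image.mp h
      exact hM0 _ _ _ _
    · obtain ⟨i, -, rfl⟩ := Finset.mem_image.mp h
      exact h0 i
  intro K _ _ _ x hdeg hn hx hZ
  have hMx : ∀ a b c d, evalForm (M a b c d) x ≠ 0 := by
    intro a b c d
    exact hZ _ (Finset.mem_union_left _ (Finset.mem_image.mpr ⟨(a, b, c, d), Finset.mem_univ _, rfl⟩))
  have hℓx : ∀ i, evalForm (ℓ i) x ≠ 0 := by
    intro i
    exact hZ _ (Finset.mem_union_right _ (Finset.mem_image.mpr ⟨i, Finset.mem_univ _, rfl⟩))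
  have hEK : ∑ᶠ w : Place K, err A w ≤ E := (hE₀ K).trans (le_max_left _ _)
  have hh : 0 ≤ height x := height_nonneg x hx
  have hfk : 1 ≤ Module.finrank k K := by
    have : FiniteDimensional k K := Module.Finite.of_restrictScalars_finite ℚ k K
    exact Module.finrank_pos
  have hδ1 : 1 ≤ δ := hfk.trans hdeg
  have hδ1' : (1 : ℝ) ≤ δ := by exact_mod_cast hδ1
  have hcard : (placesAbove K S).ncard ≤ 2 * δ := by
    rcases hn with h | h
    · calc (placesAbove K S).ncard ≤ S.card * Module.finrank k K := ncard_placesAbove_le S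
        _ ≤ 2 * δ := Nat.mul_le_mul h hdeg
    · exact h
  have hfin : (placesAbove K S).Finite := placesAbove_finite S
  set W := hfin.toFinset with hW
  have hWcard : W.card ≤ 2 * δ := by
    rw [← Set.ncard_eq_toFinset_card _ hfin]; exact hcard
  -- rewriting the proximity function
  have hsumE : ∀ T : Finset (Place K), ∑ w ∈ T, err A w ≤ E := fun T =>
    (sum_le_finsum (fun w => err_nonneg A w) (support_err_finite A) T).trans hEK
  have hglob : ∀ (N : Fin 3 → k) (_ : ∀ j, N j ∈ A) (_ : evalForm N x ≠ 0) (T : Finset (Place K)),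
      ∑ w ∈ T, mu N w x ≤ height x + E := by
    intro N hN hNx T
    exact (sum_mu_le hN hNx T).trans (by linarith)
  have hprox : proximity S ℓ x = ∑ i, ∑ w ∈ W,
      (mu (ℓ i) w x + Real.log (normV w fun j => algebraMap k K (ℓ i j))) := by
    unfold proximity
    refine Finset.sum_congr rfl fun i _ => ?_
    rw [finsum_mem_eq_finite_toFinset_sum _ hfin]
    refine Finset.sum_congr rfl fun w _ => ?_
    have hn0 : (fun j => algebraMap k K (ℓ i j)) ≠ 0 := by
      intro h
      apply h0 i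
      funext j
      have := congrFun h j
      simpa using this
    have p1 := normV_pos w hx
    have p2 := normV_pos w hn0
    have p3 := absV_pos w (hℓx i)
    rw [Real.log_div (mul_pos p1 p2).ne' p3.ne', Real.log_mul p1.ne' p2.ne']
    unfold mu
    ring
  have hnorm : ∀ i (w : Place K), Real.log (normV w fun j => algebraMap k K (ℓ i j)) ≤ err A w := by
    intro i w
    have := log_normV_le_err (fun j => hAℓ i j) w
    have h2 := log_kap_nonneg w
    linarith
  rw [hprox]
  rcases Nat.lt_or_ge q 3 with hq | hq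
  · -- few lines: trivial bound
    have hq' : (q : ℝ) ≤ 2 := by exact_mod_cast Nat.lt_succ_iff.mp hq
    have hline : ∀ i, ∑ w ∈ W, (mu (ℓ i) w x + Real.log (normV w fun j => algebraMap k K (ℓ i j)))
        ≤ height x + 2 * E := by
      intro i
      rw [Finset.sum_add_distrib]
      have h1 := hglob (ℓ i) (fun j => hAℓ i j) (hℓx i) W
      have h2 : ∑ w ∈ W, Real.log (normV w fun j => algebraMap k K (ℓ i j)) ≤ E :=
        (Finset.sum_le_sum fun w _ => hnorm i w).trans (hsumE W)
      linarith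
    calc ∑ i, ∑ w ∈ W, (mu (ℓ i) w x + Real.log (normV w fun j => algebraMap k K (ℓ i j)))
        ≤ ∑ _i : Fin q, (height x + 2 * E) := Finset.sum_le_sum fun i _ => hline i
      _ = q * (height x + 2 * E) := by
          rw [Finset.sum_const, Finset.card_univ, Fintype.card_fin, nsmul_eq_mul]
      _ ≤ 3 * δ * height x + (4 * δ + 2 * q) * E := by
          have h1 : (q : ℝ) * height x ≤ 3 * δ * height x := by nlinarith
          have h2 : (0 : ℝ) ≤ 4 * δ * E := by positivity
          nlinarith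
  · -- main case
    have hsel : ∀ w : Place K, ∃ a b, a ≠ b ∧ mu (ℓ b) w x ≤ mu (ℓ a) w x ∧
        ∀ i, i ≠ a → i ≠ b → mu (ℓ i) w x ≤ err A w := by
      intro w
      refine top_two (by omega) (fun i => mu (ℓ i) w x) (err A w) ?_
      intro i j l hij hil hjl
      exact hA3 i j l hij hil hjl A (hA3' i j l) K w x (hℓx i) (hℓx j) (hℓx l)
    choose a b hab hle hrest using hsel
    have hlocal : ∀ w : Place K, ∑ i, (mu (ℓ i) w x
        + Real.log (normV w fun j => algebraMap k K (ℓ i j)))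
        ≤ mu (ℓ (a w)) w x + mu (ℓ (b w)) w x + 2 * q * err A w := by
      intro w
      rw [Finset.sum_add_distrib]
      have h1 : ∑ i, Real.log (normV w fun j => algebraMap k K (ℓ i j)) ≤ q * err A w := by
        calc ∑ i, Real.log (normV w fun j => algebraMap k K (ℓ i j))
            ≤ ∑ _i : Fin q, err A w := Finset.sum_le_sum fun i _ => hnorm i w
          _ = q * err A w := by
              rw [Finset.sum_const, Finset.card_univ, Fintype.card_fin, nsmul_eq_mul]
      have hb' : b w ∈ Finset.univ.erase (a w) :=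
        Finset.mem_erase.mpr ⟨(hab w).symm, Finset.mem_univ _⟩
      have h2 : ∑ i, mu (ℓ i) w x ≤ mu (ℓ (a w)) w x + mu (ℓ (b w)) w x + q * err A w := by
        rw [← Finset.add_sum_erase Finset.univ _ (Finset.mem_univ (a w)),
          ← Finset.add_sum_erase (Finset.univ.erase (a w)) _ hb']
        have h3 : ∑ i ∈ (Finset.univ.erase (a w)).erase (b w), mu (ℓ i) w x ≤ q * err A w := by
          calc ∑ i ∈ (Finset.univ.erase (a w)).erase (b w), mu (ℓ i) w x
              ≤ ∑ _i ∈ (Finset.univ.erase (a w)).erase (b w), err A w := by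
                refine Finset.sum_le_sum fun i hi => ?_
                have hi1 := Finset.mem_erase.mp hi
                have hi2 := Finset.mem_erase.mp hi1.2
                exact hrest w i hi2.1 hi1.1
            _ = (((Finset.univ.erase (a w)).erase (b w)).card : ℝ) * err A w := by
                rw [Finset.sum_const, nsmul_eq_mul]
            _ ≤ q * err A w := by
                refine mul_le_mul_of_nonneg_right ?_ (err_nonneg A w)
                have : ((Finset.univ.erase (a w)).erase (b w)).card ≤ q := by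
                  calc _ ≤ (Finset.univ : Finset (Fin q)).card :=
                        Finset.card_le_card ((Finset.erase_subset _ _).trans (Finset.erase_subset _ _))
                    _ = q := by rw [Finset.card_univ, Fintype.card_fin]
                exact_mod_cast this
        linarith
      linarith
    have hmaxsum : ∑ w ∈ W, mu (ℓ (a w)) w x ≤ 2 * δ * (height x + E) := by
      have hone : ∀ w ∈ W, mu (ℓ (a w)) w x ≤ height x + E := by
        intro w _
        have := hglob (ℓ (a w)) (fun j => hAℓ _ j) (hℓx _) {w}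
        simpa using this
      calc ∑ w ∈ W, mu (ℓ (a w)) w x ≤ ∑ _w ∈ W, (height x + E) := Finset.sum_le_sum hone
        _ = W.card * (height x + E) := by rw [Finset.sum_const, nsmul_eq_mul]
        _ ≤ 2 * δ * (height x + E) := by
            refine mul_le_mul_of_nonneg_right ?_ (by linarith)
            exact_mod_cast hWcard
    have hminsum : ∑ w ∈ W, mu (ℓ (b w)) w x ≤ δ * (height x + 2 * E) := by
      refine sum_le_of_pairs (fun w => mu (ℓ (b w)) w x) _ (by linarith) δ W hWcard ?_ ?_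
      · intro w _
        have := hglob (ℓ (b w)) (fun j => hAℓ _ j) (hℓx _) {w}
        simp only [Finset.sum_singleton] at this
        linarith
      · intro w _ w' _ hne
        obtain ⟨α, hα, β, hβ, γ, hγ, η, hη, e1, e2⟩ :=
          hMc (a w) (b w) (a w') (b w') hq (hab w) (hab w')
        set N := M (a w) (b w) (a w') (b w') with hN
        have hsubA := hAM (a w) (b w) (a w') (b w')
        have i1 : mu (ℓ (b w)) w x ≤ mu N w x + err A w :=
          min_mu_le (hsubA hα) (hsubA hβ) e1 w x (hℓx _) (hℓx _) (hMx _ _ _ _) (hle w) le_rfl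
        have i2 : mu (ℓ (b w')) w' x ≤ mu N w' x + err A w' :=
          min_mu_le (hsubA hγ) (hsubA hη) e2 w' x (hℓx _) (hℓx _) (hMx _ _ _ _) (hle w') le_rfl
        have i3 := hglob N (fun j => hsubA (hMA _ _ _ _ j)) (hMx _ _ _ _) {w, w'}
        have i4 := hsumE {w, w'}
        rw [Finset.sum_pair hne] at i3 i4
        linarith
    rw [Finset.sum_comm]
    calc ∑ w ∈ W, ∑ i, (mu (ℓ i) w x + Real.log (normV w fun j => algebraMap k K (ℓ i j)))
        ≤ ∑ w ∈ W, (mu (ℓ (a w)) w x + mu (ℓ (b w)) w x + 2 * q * err A w) :=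
          Finset.sum_le_sum fun w _ => hlocal w
      _ = ∑ w ∈ W, mu (ℓ (a w)) w x + ∑ w ∈ W, mu (ℓ (b w)) w x
          + 2 * q * ∑ w ∈ W, err A w := by
          rw [Finset.sum_add_distrib, Finset.sum_add_distrib, Finset.mul_sum]
      _ ≤ 2 * δ * (height x + E) + δ * (height x + 2 * E) + 2 * q * E := by
          have h1 : (2 : ℝ) * q * ∑ w ∈ W, err A w ≤ 2 * q * E :=
            mul_le_mul_of_nonneg_left (hsumE W) (by positivity)
          linarith
      _ = 3 * δ * height x + (4 * δ + 2 * q) * E := by ring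

end Pool.Agent.Lib.MP_d0e829_nt
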