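import Pool.Agent.Lib.MP_d0e829_nt.Local

/-!
Sanity checks for the definitions: the height used here is Mathlib's logarithmic height divided by
the degree, and height and proximity do not depend on the choice of homogeneous coordinates.
-/

open NumberField Real

namespace Pool.Agent.Lib.MP_d0e829_nt

section single

variable {K : Type*} [Field K] [NumberField K]

lemma normV_eq_rpow (w : Place K) (x : Fin 3 → K) :
    normV w x = (⨆ j, rawAbs w (x j)) ^ weight w := by
  obtain ⟨j, hj⟩ := exists_eq_ciSup_of_finite (f := fun j => rawAbs w (x j))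
  have hle : ∀ i, rawAbs w (x i) ≤ ⨆ j, rawAbs w (x j) := fun i =>
    le_ciSup (f := fun j => rawAbs w (x j)) (Set.finite_range _).bddAbove i
  apply le_antisymm
  · refine ciSup_le fun i => ?_
    exact Real.rpow_le_rpow (rawAbs_nonneg _ _) (hle i) (weight_pos w).le
  · rw [← hj]
    exact absV_le_normV w x j

/-- The height used here is Mathlib's logarithmic height divided by the degree. -/
theorem height_eq_logHeight {x : Fin 3 → K} (hx : x ≠ 0) :
    height x = Height.logHeight x / Module.finrank ℚ K := by
  have hd := finrank_pos' (K := K)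
  have hpos : ∀ w : Place K, 0 < ⨆ j, rawAbs w (x j) := by
    intro w
    obtain ⟨j, hj⟩ := Function.ne_iff.mp hx
    exact (rawAbs_pos w hj).trans_le
      (le_ciSup (f := fun j => rawAbs w (x j)) (Set.finite_range _).bddAbove j)
  have hlog : ∀ w : Place K, Real.log (normV w x) = weight w * Real.log (⨆ j, rawAbs w (x j)) := by
    intro w
    rw [normV_eq_rpow, Real.log_rpow (hpos w)]
  have hposI : ∀ w : InfinitePlace K, 0 < ⨆ j, w (x j) := fun w => hpos (Sum.inl w)
  have hposF : ∀ w : FinitePlace K, 0 < ⨆ j, w (x j) := fun w => hpos (Sum.inr w)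
  have hF : 0 < ∏ᶠ w : FinitePlace K, ⨆ j, w (x j) := 
    finprod_induction (fun t : ℝ => 0 < t) one_pos (fun _ _ => mul_pos) hposF
  have hI : 0 < ∏ w : InfinitePlace K, (⨆ j, w (x j)) ^ w.mult :=
    Finset.prod_pos fun w _ => pow_pos (hposI w) _
  rw [Height.logHeight_eq_log_mulHeight, NumberField.mulHeight_eq hx, Real.log_mul hI.ne' hF.ne',
    Real.log_prod (fun w _ => (pow_pos (hposI w) _).ne'), Real.log_finprod hposF]
  unfold height
  rw [finsum_sum_type _ (support_log_normV_finite hx), finsum_eq_sum_of_fintype, add_div,
    Finset.sum_div, div_eq_inv_mul (∑ᶠ w : FinitePlace K, Real.log (⨆ j, w (x j))),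
    mul_finsum]
  congr 1
  · refine Finset.sum_congr rfl fun w _ => ?_
    rw [hlog, Real.log_pow]
    simp only [weight, rawAbs]
    ring
  · refine finsum_congr fun w => ?_
    rw [hlog]
    simp only [weight, rawAbs]
    ring

lemma normV_smul (w : Place K) (c : K) (x : Fin 3 → K) :
    normV w (c • x) = absV w c * normV w x := by
  unfold normV
  rw [Real.mul_iSup_of_nonneg (absV_nonneg w c)]
  congr 1
  funext j
  rw [Pi.smul_apply, smul_eq_mul, absV_mul]

/-- The height does not depend on the choice of homogeneous coordinates. -/
theorem height_smul {c : K} (hc : c ≠ 0) {x : Fin 3 → K} (hx : x ≠ 0) :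
    height (c • x) = height x := by
  unfold height
  have h : ∀ w : Place K, Real.log (normV w (c • x))
      = Real.log (absV w c) + Real.log (normV w x) := by
    intro w
    rw [normV_smul, Real.log_mul (absV_pos w hc).ne' (normV_pos w hx).ne']
  simp only [h]
  rw [finsum_add_distrib (support_log_absV_finite hc) (support_log_normV_finite hx),
    product_formula hc, zero_add]

end single

section relative

variable {k : Type*} [Field k] [NumberField k] {K : Type*} [Field K] [NumberField K] [Algebra k K]

/-- The proximity function does not depend on the choice of homogeneous coordinates. -/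
theorem proximity_smul (S : Finset (Place k)) {q : ℕ} (ℓ : Fin q → Fin 3 → k) {c : K} (hc : c ≠ 0)
    (x : Fin 3 → K) : proximity S ℓ (c • x) = proximity S ℓ x := by
  unfold proximity
  refine Finset.sum_congr rfl fun i _ => finsum_mem_congr rfl fun w _ => ?_
  have h1 : evalForm (ℓ i) (c • x) = c * evalForm (ℓ i) x := by
    simp only [evalForm, Pi.smul_apply, smul_eq_mul, Finset.mul_sum]
    exact Finset.sum_congr rfl fun j _ => by ring
  rw [h1, absV_mul, normV_smul, mul_assoc, mul_div_mul_left _ _ (absV_pos w hc).ne']

end relative

end Pool.Agent.Lib.MP_d0e829_nt
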